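import Mathlib

namespace Pool.Agent.Results.MP_41e757_co.One

open Classical in
/-- A skew `t`-family of length `m` over the alphabet `X`. -/
def Skew (X : Type) (t m : ℕ) : Prop :=
  ∃ n : ℕ, t + 1 ≤ n ∧ ∃ a b : Fin m → Fin n → X,
    (∀ i, t + 1 ≤ hammingDist (a i) (b i)) ∧ ∀ i j, i < j → hammingDist (a i) (b j) ≤ t

open Classical in
lemma close {X : Type} {n : ℕ} {u v : Fin n → X} (h : hammingDist u v ≤ 1) :
    ∀ x y, u x = v x ∨ u y = v y ∨ x = y := by
  intro x y
  by_cases hx : u x = v x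
  · exact Or.inl hx
  by_cases hy : u y = v y
  · exact Or.inr (Or.inl hy)
  exact Or.inr (Or.inr (Finset.card_le_one.1 h x (by simpa using hx) y (by simpa using hy)))

open Classical in
lemma far {X : Type} {n : ℕ} {u v : Fin n → X} (h : 1 + 1 ≤ hammingDist u v) :
    ∃ x y, u x ≠ v x ∧ u y ≠ v y ∧ x ≠ y := by
  obtain ⟨x, hx, y, hy, hxy⟩ := Finset.one_lt_card.1 h
  exact ⟨x, y, by simpa using hx, by simpa using hy, hxy⟩

lemma core {X ι : Type} (A B a2 a3 b3 b4 : ι → X) (p q k l : ι)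
    (h1 : ∀ x y, A x = b3 x ∨ A y = b3 y ∨ x = y)
    (h2 : ∀ x y, A x = b4 x ∨ A y = b4 y ∨ x = y)
    (h3 : ∀ x y, A x = B x ∨ A y = B y ∨ x = y)
    (h4 : ∀ x y, a2 x = b3 x ∨ a2 y = b3 y ∨ x = y)
    (h5 : ∀ x y, a2 x = b4 x ∨ a2 y = b4 y ∨ x = y)
    (h6 : ∀ x y, a2 x = B x ∨ a2 y = B y ∨ x = y)
    (h7 : ∀ x y, a3 x = b4 x ∨ a3 y = b4 y ∨ x = y)
    (h8 : ∀ x y, a3 x = B x ∨ a3 y = B y ∨ x = y)
    (hp : A p ≠ a2 p) (hq : b4 q ≠ B q) (hk : a3 k ≠ b3 k) (hl : a3 l ≠ b3 l) (hkl : k ≠ l) :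
    False := by
  have := h1 p q; have := h1 p k; have := h1 p l; have := h1 q k; have := h1 q l; have := h1 k l
  have := h2 p q; have := h2 p k; have := h2 p l; have := h2 q k; have := h2 q l; have := h2 k l
  have := h3 p q; have := h3 p k; have := h3 p l; have := h3 q k; have := h3 q l; have := h3 k l
  have := h4 p q; have := h4 p k; have := h4 p l; have := h4 q k; have := h4 q l; have := h4 k l
  have := h5 p q; have := h5 p k; have := h5 p l; have := h5 q k; have := h5 q l; have := h5 k l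
  have := h6 p q; have := h6 p k; have := h6 p l; have := h6 q k; have := h6 q l; have := h6 k l
  have := h7 p q; have := h7 p k; have := h7 p l; have := h7 q k; have := h7 q l; have := h7 k l
  have := h8 p q; have := h8 p k; have := h8 p l; have := h8 q k; have := h8 q l; have := h8 k l
  clear h1 h2 h3 h4 h5 h6 h7 h8
  grind (splits := 200)

theorem result (X : Type) [Nontrivial X] : IsGreatest {m : ℕ | Skew X 1 m} 4 := by
  classical
  constructor
  · obtain ⟨x, y, hxy⟩ := exists_pair_ne X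
    have hyx := hxy.symm
    refine ⟨2, le_rfl, ![![x, x], ![x, y], ![y, x], ![y, y]],
      ![![y, y], ![y, x], ![x, y], ![x, x]], ?_, ?_⟩
    · intro i
      fin_cases i <;> simp [hammingDist, Finset.card_filter, Fin.sum_univ_two, hxy, hyx]
    · intro i j hij
      fin_cases i <;> fin_cases j <;>
        simp [hammingDist, Finset.card_filter, Fin.sum_univ_two, hxy, hyx] at hij ⊢
  · rintro m ⟨n, -, a, b, hf, hc⟩
    by_contra hm
    have hm : 4 < m := not_le.1 hm
    let i0 : Fin m := ⟨0, by omega⟩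
    let i1 : Fin m := ⟨1, by omega⟩
    let i2 : Fin m := ⟨2, by omega⟩
    let i3 : Fin m := ⟨3, by omega⟩
    let i4 : Fin m := ⟨4, by omega⟩
    have c := fun i j (h : i < j) => close (hc i j h)
    have h01 : a i0 ≠ a i1 := by
      intro e
      have h1 := hf i1
      have h2 := hc i0 i1 (by simp [i0, i1, Fin.lt_def])
      rw [e] at h2
      omega
    have h34 : b i3 ≠ b i4 := by
      intro e
      have h1 := hf i3
      have h2 := hc i3 i4 (by simp [i3, i4, Fin.lt_def])
      rw [← e] at h2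
      omega
    obtain ⟨p, hp⟩ := Function.ne_iff.1 h01
    obtain ⟨q, hq⟩ := Function.ne_iff.1 h34
    obtain ⟨k, l, hk, hl, hkl⟩ := far (hf i2)
    exact core (a i0) (b i4) (a i1) (a i2) (b i2) (b i3) p q k l
      (c i0 i2 (by simp [i0, i2, Fin.lt_def])) (c i0 i3 (by simp [i0, i3, Fin.lt_def]))
      (c i0 i4 (by simp [i0, i4, Fin.lt_def])) (c i1 i2 (by simp [i1, i2, Fin.lt_def]))
      (c i1 i3 (by simp [i1, i3, Fin.lt_def])) (c i1 i4 (by simp [i1, i4, Fin.lt_def]))
      (c i2 i3 (by simp [i2, i3, Fin.lt_def])) (c i2 i4 (by simp [i2, i4, Fin.lt_def]))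
      hp hq hk hl hkl

end Pool.Agent.Results.MP_41e757_co.One
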